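import Pool.Agent.LPW.StmtsS

/-!
# Squad LPW, row DIV (helper77): division with remainder modulo a power
-/

set_option autoImplicit false

open Polynomial

namespace Pool.Agent.LPW.H77

theorem div : DivStmt := by
  intro A _ _ a P₀ P₁ h0 M
  induction M with
  | zero =>
    intro g
    refine ⟨0, 0, g, by simp, ?_⟩
    rw [degree_zero, bot_lt_iff_ne_bot, Ne, degree_eq_bot]
    exact h0.ne_zero
  | succ M ih =>
    intro g
    obtain ⟨q, r, e, hg, hr⟩ := ih g
    have hd := modByMonic_add_div e P₀
    have hd2 := degree_modByMonic_lt e h0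
    refine ⟨q + C (a ^ M) * (e /ₘ P₀), r + C (a ^ M) * (e %ₘ P₀), - ((e /ₘ P₀) * P₁), ?_, ?_⟩
    · have e1 : C (a ^ (M + 1)) = C (a ^ M) * C a := by rw [pow_succ, C_mul]
      rw [e1]
      linear_combination hg - C (a ^ M) * hd
    · refine lt_of_le_of_lt (degree_add_le _ _) (max_lt hr ?_)
      refine lt_of_le_of_lt ?_ hd2
      rw [← smul_eq_C_mul]
      exact degree_smul_le _ _

end Pool.Agent.LPW.H77
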