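import Pool.Agent.LPW.StmtsD

/-!
# Squad LPW, row DSA (helper77): the size of the roots of the factors along a line
-/

set_option autoImplicit false

open Polynomial NumberField
open Pool.Agent.Helper65_Dens (Par gpoly Ix degs prodPoly ixMap Sep)

namespace Pool.Agent.LPW.H77

variable {r₁ r₂ : ℕ}

theorem eval_fac_inl (a : Ix r₁ r₂ → ℤ) (i : Fin r₁) (ρ : ℂ) :
    ((fac a (.inl i)).map (Int.castRingHom ℂ)).eval ρ = ρ + (a (.inl i) : ℂ) := by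
  have h1 : gpoly (degs r₁ r₂) (fun q => a (ixMap q)) (Sum.inl i) =
      X ^ 1 + ∑ k : Fin 1, C (a (.inl i)) * X ^ (k : ℕ) := rfl
  rw [fac, h1]
  simp

theorem eval_fac_inr (a : Ix r₁ r₂ → ℤ) (j : Fin r₂) (ρ : ℂ) :
    ((fac a (.inr j)).map (Int.castRingHom ℂ)).eval ρ =
      ρ ^ 2 + (a (.inr (.inl j)) : ℂ) * ρ + (a (.inr (.inr j)) : ℂ) := by
  have h1 : gpoly (degs r₁ r₂) (fun q => a (ixMap q)) (Sum.inr j) =
      X ^ 2 + ∑ k : Fin 2, C (a (if k.val = 0 then .inr (.inr j) else .inr (.inl j))) *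
        X ^ (k : ℕ) := rfl
  rw [fac, h1, Fin.sum_univ_two]
  simp
  ring

/-- the speed of the factor `j` -/
def al (i : Fin 2 → Fin r₁ ⊕ Fin r₂) (v : Fin 2 → ℤ) (j : Fin r₁ ⊕ Fin r₂) : ℤ :=
  ∑ m, if j = i m then v m else 0

theorem cst_inj : Function.Injective (cst (r₁ := r₁) (r₂ := r₂)) := by
  rintro (x | x) (y | y) h
  · have := Sum.inl_injective h
    rw [this]
  · cases h
  · cases h
  · have := Sum.inr_injective (Sum.inr_injective h)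
    rw [this]

theorem shg_cst (a : Ix r₁ r₂ → ℤ) (i : Fin 2 → Fin r₁ ⊕ Fin r₂) (P v : Fin 2 → ℤ) (k : ℕ)
    (j : Fin r₁ ⊕ Fin r₂) :
    shg (fun m => cst (i m)) a (fun m => P m + v m * k) (cst j) =
      shg (fun m => cst (i m)) a P (cst j) + al i v j * k := by
  unfold shg al
  rw [Finset.sum_mul, add_assoc, ← Finset.sum_add_distrib]
  congr 1
  refine Finset.sum_congr rfl fun m _ => ?_
  by_cases h : j = i m
  · have h' : cst j = (fun m => cst (i m)) m := congrArg cst h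
    rw [if_pos h', if_pos h', if_pos h]
  · have h' : ¬ cst j = (fun m => cst (i m)) m := fun h2 => h (cst_inj h2)
    rw [if_neg h', if_neg h', if_neg h]
    simp

theorem shg_mid (a : Ix r₁ r₂ → ℤ) (i : Fin 2 → Fin r₁ ⊕ Fin r₂) (P : Fin 2 → ℤ) (j : Fin r₂) :
    shg (fun m => cst (i m)) a P (.inr (.inl j)) = a (.inr (.inl j)) := by
  unfold shg
  have : ∀ m, (if (Sum.inr (Sum.inl j) : Ix r₁ r₂) = cst (i m) then P m else 0) = 0 := by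
    intro m
    rw [if_neg]
    intro h
    rcases hm : i m with x | x <;> rw [hm] at h <;> simp [cst] at h
  simp [this]

theorem al_of_not {i : Fin 2 → Fin r₁ ⊕ Fin r₂} {v : Fin 2 → ℤ} {j : Fin r₁ ⊕ Fin r₂}
    (h : ¬ ∃ m, j = i m ∧ v m ≠ 0) : al i v j = 0 := by
  refine Finset.sum_eq_zero fun m _ => ?_
  split_ifs with h1
  · by_contra h2
    exact h ⟨m, h1, h2⟩
  · rfl

theorem al_of {i : Fin 2 → Fin r₁ ⊕ Fin r₂} (hi : Function.Injective i) {v : Fin 2 → ℤ}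
    {j : Fin r₁ ⊕ Fin r₂} {m : Fin 2} (h : j = i m) : al i v j = v m := by
  subst h
  unfold al
  rw [Finset.sum_eq_single m]
  · simp
  · intro m' _ hm'
    rw [if_neg]
    intro h
    exact hm' (hi h).symm
  · simp

/-- linear factor, moving -/
theorem lin_mov (b α : ℤ) (hα : α ≠ 0) : ∃ (A : ℝ) (k₀ : ℕ), 1 ≤ A ∧ ∀ k : ℕ, k₀ ≤ k → ∀ ρ : ℂ,
    ρ + ((b + α * k : ℤ) : ℂ) = 0 → (k : ℝ) ≤ ‖ρ‖ ^ 4 ∧ ‖ρ‖ ≤ A * k ∧ (k : ℝ) ≤ 2 * ‖ρ‖ := by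
  refine ⟨1 + |(b : ℝ)| + |(α : ℝ)|, 3 + 2 * b.natAbs, by
    linarith [abs_nonneg (b : ℝ), abs_nonneg (α : ℝ)], fun k hk ρ hρ => ?_⟩
  have hk' : (3 : ℝ) + 2 * |(b : ℝ)| ≤ k := by
    have h1 : ((3 + 2 * b.natAbs : ℕ) : ℝ) ≤ (k : ℝ) := by exact_mod_cast hk
    have h2 : ((b.natAbs : ℕ) : ℝ) = |(b : ℝ)| := by
      rw [Nat.cast_natAbs, Int.cast_abs]
    push_cast at h1
    rw [h2] at h1
    exact h1
  have hb := abs_nonneg (b : ℝ)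
  have hα1 : (1 : ℝ) ≤ |(α : ℝ)| := by
    have : (1 : ℤ) ≤ |α| := Int.one_le_abs hα
    exact_mod_cast this
  have hn : ‖ρ‖ = |(b : ℝ) + α * k| := by
    have h1 : ρ = -((b + α * k : ℤ) : ℂ) := by linear_combination hρ
    rw [h1, norm_neg, Complex.norm_intCast]
    push_cast
    rfl
  have hk0 : (0 : ℝ) ≤ k := Nat.cast_nonneg k
  have h2 : |(α : ℝ) * k| = |(α : ℝ)| * k := by rw [abs_mul, abs_of_nonneg hk0]
  have hlo : (k : ℝ) ≤ 2 * ‖ρ‖ := by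
    have h1 : |(α : ℝ) * k| - |(b : ℝ)| ≤ |(b : ℝ) + α * k| := by
      have := abs_sub_abs_le_abs_sub ((α : ℝ) * k) (-(b : ℝ))
      rw [abs_neg, sub_neg_eq_add, add_comm ((α : ℝ) * k)] at this
      exact this
    rw [hn]
    rw [h2] at h1
    nlinarith
  have hup : ‖ρ‖ ≤ (1 + |(b : ℝ)| + |(α : ℝ)|) * k := by
    have h1 : |(b : ℝ) + α * k| ≤ |(b : ℝ)| + |(α : ℝ) * k| := abs_add_le _ _
    rw [hn]
    rw [h2] at h1
    nlinarith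
  refine ⟨?_, hup, hlo⟩
  have h3 : (k : ℝ) / 2 ≤ ‖ρ‖ := by linarith
  have h4 : ((k : ℝ) / 2) ^ 4 ≤ ‖ρ‖ ^ 4 := pow_le_pow_left₀ (by positivity) h3 4
  have h5 : (3 : ℝ) ≤ k := by linarith
  have h6 : (k : ℝ) ≤ ((k : ℝ) / 2) ^ 4 := by
    have h7 : (27 : ℝ) ≤ (k : ℝ) ^ 3 := by
      have := pow_le_pow_left₀ (by norm_num) h5 3
      linarith
    nlinarith
  linarith

theorem lin_fix (b : ℤ) (ρ : ℂ) (h : ρ + (b : ℂ) = 0) : ‖ρ‖ ≤ 1 + |(b : ℝ)| := by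
  have h1 : ρ = -(b : ℂ) := by linear_combination h
  rw [h1, norm_neg, Complex.norm_intCast]
  linarith

/-- upper bound for the roots of a quadratic polynomial -/
theorem quad_up (c d : ℝ) (ρ : ℂ) (h : ρ ^ 2 + (c : ℂ) * ρ + (d : ℂ) = 0) :
    ‖ρ‖ ^ 2 ≤ c ^ 2 + 2 * |d| := by
  have h1 : ρ ^ 2 = -((c : ℂ) * ρ + (d : ℂ)) := by linear_combination h
  have h2 : ‖ρ‖ ^ 2 ≤ |c| * ‖ρ‖ + |d| := by
    rw [← norm_pow, h1, norm_neg]
    refine le_trans (norm_add_le _ _) ?_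
    rw [norm_mul, Complex.norm_real, Complex.norm_real]
    exact le_refl _
  nlinarith [sq_nonneg (‖ρ‖ - |c|), sq_abs c]

/-- lower bound for the constant coefficient -/
theorem quad_lo (c d : ℝ) (ρ : ℂ) (h : ρ ^ 2 + (c : ℂ) * ρ + (d : ℂ) = 0) :
    |d| ≤ ‖ρ‖ ^ 2 + |c| * ‖ρ‖ := by
  have h1 : (d : ℂ) = -(ρ ^ 2 + (c : ℂ) * ρ) := by linear_combination h
  have h2 : |d| = ‖(d : ℂ)‖ := by rw [Complex.norm_real]; rfl
  rw [h2, h1, norm_neg]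
  refine le_trans (norm_add_le _ _) ?_
  rw [norm_mul, Complex.norm_real, norm_pow]
  exact le_refl _

theorem quad_mov (c d α : ℤ) (hα : α ≠ 0) : ∃ (A : ℝ) (k₀ : ℕ), 1 ≤ A ∧ ∀ k : ℕ, k₀ ≤ k →
    ∀ ρ : ℂ, ρ ^ 2 + (c : ℂ) * ρ + ((d + α * k : ℤ) : ℂ) = 0 →
      (k : ℝ) ≤ ‖ρ‖ ^ 4 ∧ ‖ρ‖ ≤ A * k ∧ ‖ρ‖ ^ 2 ≤ A * k := by
  have hc := abs_nonneg (c : ℝ)
  have hd := abs_nonneg (d : ℝ)
  have hα1 : (1 : ℝ) ≤ |(α : ℝ)| := by
    have : (1 : ℤ) ≤ |α| := Int.one_le_abs hα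
    exact_mod_cast this
  obtain ⟨k₁, hk₁⟩ := exists_nat_ge (4 * (1 + |(c : ℝ)| + |(d : ℝ)|) ^ 2)
  refine ⟨1 + (c : ℝ) ^ 2 + 2 * |(d : ℝ)| + 2 * |(α : ℝ)|, k₁ + 1, by
    nlinarith [sq_nonneg (c : ℝ)], fun k hk ρ hρ => ?_⟩
  have hk2 : (k₁ : ℝ) + 1 ≤ k := by exact_mod_cast hk
  have hk0 : (0 : ℝ) ≤ k := Nat.cast_nonneg k
  have hk1 : (1 : ℝ) ≤ k := by
    have : (0 : ℝ) ≤ k₁ := Nat.cast_nonneg k₁
    linarith
  have hρ' : ρ ^ 2 + (((c : ℝ)) : ℂ) * ρ + (((d : ℝ) + α * k : ℝ) : ℂ) = 0 := by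
    push_cast at hρ ⊢
    exact hρ
  have h2 : |(α : ℝ) * k| = |(α : ℝ)| * k := by rw [abs_mul, abs_of_nonneg hk0]
  have hu := quad_up _ _ _ hρ'
  have hl := quad_lo _ _ _ hρ'
  have h3 : |(d : ℝ) + α * k| ≤ |(d : ℝ)| + |(α : ℝ) * k| := abs_add_le _ _
  have h4 : |(α : ℝ) * k| - |(d : ℝ)| ≤ |(d : ℝ) + α * k| := by
    have := abs_sub_abs_le_abs_sub ((α : ℝ) * k) (-(d : ℝ))
    rw [abs_neg, sub_neg_eq_add, add_comm ((α : ℝ) * k)] at this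
    exact this
  rw [h2] at h3 h4
  set y := ‖ρ‖ with hy
  have hy0 : 0 ≤ y := norm_nonneg _
  have hsq : y ^ 2 ≤ (1 + (c : ℝ) ^ 2 + 2 * |(d : ℝ)| + 2 * |(α : ℝ)|) * k := by
    nlinarith [sq_nonneg (c : ℝ)]
  refine ⟨?_, ?_, hsq⟩
  · by_contra hcon
    push Not at hcon
    set E := 1 + |(c : ℝ)| + |(d : ℝ)| with hE
    have hE1 : 1 ≤ E := by linarith
    have hkE : 4 * E ^ 2 < k := by linarith
    have hs0 : 0 ≤ y ^ 2 := sq_nonneg y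
    have hs : y ^ 4 = (y ^ 2) ^ 2 := by ring
    have hys : y ≤ 1 + y ^ 2 := by nlinarith [sq_nonneg (y - 1)]
    have hkk : (k : ℝ) ≤ E * (y ^ 2) + E := by
      have h5 : |(c : ℝ)| * y ≤ |(c : ℝ)| * (1 + y ^ 2) := mul_le_mul_of_nonneg_left hys hc
      nlinarith
    rcases le_total (y ^ 2) 1 with h6 | h6
    · nlinarith
    · have h7 : (k : ℝ) ≤ 2 * E * y ^ 2 := by nlinarith
      have h8 : (k : ℝ) ^ 2 ≤ (2 * E * y ^ 2) ^ 2 := pow_le_pow_left₀ hk0 h7 2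
      have h9 : (2 * E * y ^ 2) ^ 2 = 4 * E ^ 2 * y ^ 4 := by ring
      rw [h9] at h8
      have h10 : 4 * E ^ 2 * y ^ 4 ≤ 4 * E ^ 2 * k :=
        mul_le_mul_of_nonneg_left hcon.le (by positivity)
      nlinarith
  · rcases le_total y 1 with h6 | h6
    · nlinarith [sq_nonneg (c : ℝ)]
    · nlinarith

theorem quad_fix (c d : ℤ) (ρ : ℂ) (h : ρ ^ 2 + (c : ℂ) * ρ + (d : ℂ) = 0) :
    ‖ρ‖ ≤ 1 + (c : ℝ) ^ 2 + 2 * |(d : ℝ)| := by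
  have h' : ρ ^ 2 + (((c : ℝ)) : ℂ) * ρ + (((d : ℝ)) : ℂ) = 0 := by
    push_cast
    exact h
  have hu := quad_up _ _ _ h'
  nlinarith [sq_nonneg (‖ρ‖ - 1)]

/-- the statement for one factor -/
theorem dsa1 (a : Ix r₁ r₂ → ℤ) (i : Fin 2 → Fin r₁ ⊕ Fin r₂) (hi : Function.Injective i)
    (P v : Fin 2 → ℤ) (j : Fin r₁ ⊕ Fin r₂) : ∃ (A : ℝ) (k₀ : ℕ), 1 ≤ A ∧ ∀ k : ℕ, k₀ ≤ k →
    ∀ (ρ : ℂ), ((fac (shg (fun m => cst (i m)) a fun m => P m + v m * k) j).map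
        (Int.castRingHom ℂ)).eval ρ = 0 →
      ((∃ m, j = i m ∧ v m ≠ 0) → (k : ℝ) ≤ ‖ρ‖ ^ 4 ∧ ‖ρ‖ ≤ A * k ∧
        ((∃ j', j = .inr j') → ‖ρ‖ ^ 2 ≤ A * k) ∧ ((∃ j', j = .inl j') → (k : ℝ) ≤ 2 * ‖ρ‖)) ∧
      ((¬ ∃ m, j = i m ∧ v m ≠ 0) → ‖ρ‖ ≤ A) := by
  by_cases hm : ∃ m, j = i m ∧ v m ≠ 0
  · obtain ⟨m, hjm, hvm⟩ := hm
    have hal : al i v j ≠ 0 := by rw [al_of hi hjm]; exact hvm
    rcases j with j | j
    · obtain ⟨A, k₀, hA, h⟩ := lin_mov (shg (fun m => cst (i m)) a P (cst (.inl j))) _ hal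
      refine ⟨A, k₀, hA, fun k hk ρ hρ => ⟨fun _ => ?_, fun hn => absurd ⟨m, hjm, hvm⟩ hn⟩⟩
      rw [eval_fac_inl] at hρ
      have e1 := shg_cst a i P v k (.inl j)
      have e2 : (cst (Sum.inl j) : Ix r₁ r₂) = Sum.inl j := rfl
      rw [← e2, e1] at hρ
      obtain ⟨h1, h2, h3⟩ := h k hk ρ hρ
      exact ⟨h1, h2, fun hj => (by obtain ⟨j', hj'⟩ := hj; cases hj'), fun _ => h3⟩
    · obtain ⟨A, k₀, hA, h⟩ := quad_mov (a (.inr (.inl j)))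
        (shg (fun m => cst (i m)) a P (cst (.inr j))) _ hal
      refine ⟨A, k₀, hA, fun k hk ρ hρ => ⟨fun _ => ?_, fun hn => absurd ⟨m, hjm, hvm⟩ hn⟩⟩
      rw [eval_fac_inr, shg_mid] at hρ
      have e1 := shg_cst a i P v k (.inr j)
      have e2 : (cst (Sum.inr j) : Ix r₁ r₂) = Sum.inr (Sum.inr j) := rfl
      rw [← e2, e1] at hρ
      obtain ⟨h1, h2, h3⟩ := h k hk ρ hρ
      exact ⟨h1, h2, fun _ => h3, fun hj => (by obtain ⟨j', hj'⟩ := hj; cases hj')⟩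
  · have hal := al_of_not hm
    rcases j with j | j
    · refine ⟨1 + |((shg (fun m => cst (i m)) a P (cst (.inl j)) : ℤ) : ℝ)|, 0, by
        linarith [abs_nonneg ((shg (fun m => cst (i m)) a P (cst (.inl j)) : ℤ) : ℝ)],
        fun k _ ρ hρ => ⟨fun hn => absurd hn hm, fun _ => ?_⟩⟩
      rw [eval_fac_inl] at hρ
      have e1 := shg_cst a i P v k (.inl j)
      have e2 : (cst (Sum.inl j) : Ix r₁ r₂) = Sum.inl j := rfl
      rw [← e2, e1, hal, zero_mul, add_zero] at hρ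
      exact lin_fix _ _ hρ
    · refine ⟨1 + (a (.inr (.inl j)) : ℝ) ^ 2 +
        2 * |((shg (fun m => cst (i m)) a P (cst (.inr j)) : ℤ) : ℝ)|, 0, by
        nlinarith [abs_nonneg ((shg (fun m => cst (i m)) a P (cst (.inr j)) : ℤ) : ℝ),
          sq_nonneg (a (.inr (.inl j)) : ℝ)],
        fun k _ ρ hρ => ⟨fun hn => absurd hn hm, fun _ => ?_⟩⟩
      rw [eval_fac_inr, shg_mid] at hρ
      have e1 := shg_cst a i P v k (.inr j)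
      have e2 : (cst (Sum.inr j) : Ix r₁ r₂) = Sum.inr (Sum.inr j) := rfl
      rw [← e2, e1, hal, zero_mul, add_zero] at hρ
      exact quad_fix _ _ _ hρ

theorem dsa : DsaStmt := by
  intro r₁ r₂ a i hi P v
  choose A k₀ hA h using dsa1 a i hi P v
  have hle : ∀ j, A j ≤ 1 + ∑ j, A j := fun j => by
    have := Finset.single_le_sum (f := A) (fun j _ => le_trans zero_le_one (hA j))
      (Finset.mem_univ j)
    linarith
  refine ⟨1 + ∑ j, A j, ∑ j, k₀ j, ?_, fun k hk j ρ hρ => ?_⟩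
  · have : 0 ≤ ∑ j, A j := Finset.sum_nonneg fun j _ => le_trans zero_le_one (hA j)
    linarith
  · have hkj : k₀ j ≤ k :=
      le_trans (Finset.single_le_sum (f := k₀) (fun j _ => Nat.zero_le _) (Finset.mem_univ j)) hk
    obtain ⟨h1, h2⟩ := h j k hkj ρ hρ
    have hk0 : (0 : ℝ) ≤ k := Nat.cast_nonneg k
    have h3 : A j * k ≤ (1 + ∑ j, A j) * k := mul_le_mul_of_nonneg_right (hle j) hk0
    refine ⟨fun hm => ?_, fun hm => le_trans (h2 hm) (hle j)⟩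
    obtain ⟨g1, g2, g3, g4⟩ := h1 hm
    exact ⟨g1, le_trans g2 h3, fun hj => le_trans (g3 hj) h3, g4⟩

end Pool.Agent.LPW.H77
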