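import Pool.Agent.Helper77_LPW.DSA

/-!
# Squad LPW, row DSB (helper77): the distances between the roots along a line
-/

set_option autoImplicit false

open Polynomial NumberField
open Pool.Agent.Helper65_Dens (Par gpoly Ix degs prodPoly ixMap Sep rt Rt rt_quadratic)

namespace Pool.Agent.LPW.H77

variable {r₁ r₂ : ℕ}

theorem root_inl {a : Ix r₁ r₂ → ℤ} {j : Fin r₁} {ρ : ℂ}
    (h : ((fac a (.inl j)).map (Int.castRingHom ℂ)).eval ρ = 0) : ρ = rt a (.inl j) := by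
  rw [eval_fac_inl] at h
  have h1 : rt a (.inl j) = -(a (.inl j) : ℂ) := by
    apply Complex.ext <;> simp [rt]
  rw [h1]
  linear_combination h

theorem root_inr {a : Ix r₁ r₂ → ℤ} (hs : Sep a) {j : Fin r₂} {ρ : ℂ}
    (h : ((fac a (.inr j)).map (Int.castRingHom ℂ)).eval ρ = 0) :
    ∃ s, ρ = rt a (.inr (j, s)) := by
  rw [eval_fac_inr] at h
  have h1 := congrArg (fun q : ℂ[X] => q.eval ρ) (rt_quadratic hs j)
  simp only [Polynomial.map_add, Polynomial.map_pow, map_X, Polynomial.map_mul, map_C, eval_add,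
    eval_pow, eval_X, eval_mul, eval_C, eval_sub] at h1
  have h2 : (ρ - rt a (.inr (j, true))) * (ρ - rt a (.inr (j, false))) = 0 := by
    rw [← h1, ← h]
    rfl
  rcases mul_eq_zero.1 h2 with h3 | h3
  · exact ⟨true, sub_eq_zero.1 h3⟩
  · exact ⟨false, sub_eq_zero.1 h3⟩

/-- roots of different factors of a separated vector -/
theorem sep_fac {a : Ix r₁ r₂ → ℤ} (hs : Sep a) {j j' : Fin r₁ ⊕ Fin r₂} (hne : j ≠ j') {ρ ρ' : ℂ}
    (h : ((fac a j).map (Int.castRingHom ℂ)).eval ρ = 0)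
    (h' : ((fac a j').map (Int.castRingHom ℂ)).eval ρ' = 0) : 2 ≤ ‖ρ - ρ'‖ := by
  have key : ∀ o o' : Rt r₁ r₂, o ≠ o' → ρ = rt a o → ρ' = rt a o' → 2 ≤ ‖ρ - ρ'‖ := by
    intro o o' ho h1 h2
    have := hs.norm_sub o o' ho
    rw [h1, h2]
    linarith
  rcases j with j | j <;> rcases j' with j' | j'
  · refine key _ _ ?_ (root_inl h) (root_inl h')
    intro h1
    exact hne (by rw [Sum.inl_injective h1])
  · obtain ⟨s, hs'⟩ := root_inr hs h'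
    exact key _ _ (by simp) (root_inl h) hs'
  · obtain ⟨s, hs'⟩ := root_inr hs h
    exact key _ _ (by simp) hs' (root_inl h')
  · obtain ⟨s, hs'⟩ := root_inr hs h
    obtain ⟨s', hs''⟩ := root_inr hs h'
    refine key _ _ ?_ hs' hs''
    intro h1
    have h2 := Sum.inr_injective h1
    exact hne (by rw [(Prod.mk.inj h2).1])

theorem case2 (A : ℝ) : ∃ k₁ : ℕ, ∀ k : ℕ, k₁ ≤ k → ∀ ρ ρ' : ℂ, (k : ℝ) ≤ ‖ρ‖ ^ 4 →
    ‖ρ'‖ ≤ A → 2 ≤ ‖ρ - ρ'‖ := by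
  obtain ⟨k₁, hk₁⟩ := exists_nat_gt ((A + 2) ^ 4)
  refine ⟨k₁, fun k hk ρ ρ' h1 h2 => ?_⟩
  by_contra hcon
  push Not at hcon
  have h3 : ‖ρ‖ ≤ A + 2 := by
    have e : ρ = (ρ - ρ') + ρ' := by ring
    have := norm_add_le (ρ - ρ') ρ'
    rw [← e] at this
    linarith
  have h4 : ‖ρ‖ ^ 4 ≤ (A + 2) ^ 4 := pow_le_pow_left₀ (norm_nonneg _) h3 4
  have h5 : (k₁ : ℝ) ≤ k := by exact_mod_cast hk
  linarith

theorem case3a (b b' α β : ℤ) (hb : 6 ≤ |2 * b - 2 * b'|) : ∃ k₁ : ℕ, ∀ k : ℕ, k₁ ≤ k →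
    ∀ ρ ρ' : ℂ, ρ + ((b + α * k : ℤ) : ℂ) = 0 → ρ' + ((b' + β * k : ℤ) : ℂ) = 0 →
      2 ≤ ‖ρ - ρ'‖ := by
  refine ⟨2 + (b' - b).natAbs, fun k hk ρ ρ' h1 h2 => ?_⟩
  have h3 : ρ - ρ' = ((b' - b + (β - α) * k : ℤ) : ℂ) := by
    push_cast at h1 h2 ⊢
    linear_combination h1 - h2
  rw [h3, Complex.norm_intCast]
  have h4 : (2 : ℤ) ≤ |b' - b + (β - α) * k| := by
    rcases eq_or_ne α β with h | h
    · subst h
      rw [sub_self, zero_mul, add_zero]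
      rw [le_abs] at hb ⊢
      omega
    · have hk' : (2 : ℤ) + |b' - b| ≤ k := by
        rw [← Int.natCast_natAbs]
        exact_mod_cast hk
      have h5 : 1 ≤ |β - α| := Int.one_le_abs (sub_ne_zero.2 h.symm)
      have hk0 : (0 : ℤ) ≤ k := Int.natCast_nonneg k
      have h6 : |(β - α) * (k : ℤ)| = |β - α| * k := by rw [abs_mul, abs_of_nonneg hk0]
      have h7 := abs_sub_abs_le_abs_sub ((β - α) * (k : ℤ)) (-(b' - b))
      rw [abs_neg, sub_neg_eq_add, add_comm ((β - α) * (k : ℤ)), h6] at h7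
      nlinarith
  exact_mod_cast h4

theorem case3b (A : ℝ) (hA : 1 ≤ A) : ∃ k₁ : ℕ, ∀ k : ℕ, k₁ ≤ k → ∀ ρ ρ' : ℂ,
    (k : ℝ) ≤ 2 * ‖ρ‖ → ‖ρ'‖ ^ 2 ≤ A * k → 2 ≤ ‖ρ - ρ'‖ := by
  obtain ⟨k₁, hk₁⟩ := exists_nat_gt (4 * (A + 2))
  refine ⟨k₁, fun k hk ρ ρ' h1 h2 => ?_⟩
  by_contra hcon
  push Not at hcon
  have h3 : ‖ρ‖ ≤ 2 + ‖ρ'‖ := by
    have e : ρ = (ρ - ρ') + ρ' := by ring
    have := norm_add_le (ρ - ρ') ρ'
    rw [← e] at this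
    linarith
  have h5 : (k₁ : ℝ) ≤ k := by exact_mod_cast hk
  have h6 : (k : ℝ) / 2 - 2 ≤ ‖ρ'‖ := by linarith
  have h7 : (0 : ℝ) ≤ (k : ℝ) / 2 - 2 := by linarith
  have h8 : ((k : ℝ) / 2 - 2) ^ 2 ≤ ‖ρ'‖ ^ 2 := pow_le_pow_left₀ h7 h6 2
  nlinarith

theorem case3c (A : ℝ) (hA : 1 ≤ A) (c d α c' d' β : ℤ) (hc : 6 ≤ |c - c'|) :
    ∃ k₁ : ℕ, ∀ k : ℕ, k₁ ≤ k → ∀ ρ ρ' : ℂ,
      ρ ^ 2 + (c : ℂ) * ρ + ((d + α * k : ℤ) : ℂ) = 0 →
      ρ' ^ 2 + (c' : ℂ) * ρ' + ((d' + β * k : ℤ) : ℂ) = 0 → (k : ℝ) ≤ ‖ρ‖ ^ 4 →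
      ‖ρ‖ ^ 2 ≤ A * k → ‖ρ'‖ ^ 2 ≤ A * k → 2 ≤ ‖ρ - ρ'‖ := by
  set κ : ℝ := (d' : ℝ) - d + ((c : ℝ) ^ 2 - (c' : ℝ) ^ 2) / 4 with hκ
  set B : ℝ := 2 + |(c : ℝ) - c'| / 2 with hB
  set E : ℝ := |(c : ℝ)| / 2 + |(c' : ℝ)| / 2 with hE
  have hB0 : 0 < B := by positivity
  have hE0 : 0 ≤ E := by positivity
  obtain ⟨k₁, hk₁⟩ := exists_nat_gt (16 * A * B ^ 2 + 2 * (B * E + |κ|))
  obtain ⟨k₂, hk₂⟩ := exists_nat_gt ((|κ| + |(c : ℝ)| + B) ^ 4)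
  refine ⟨k₁ + k₂, fun k hk ρ ρ' h1 h2 h3 h4 h5 => ?_⟩
  have hk1 : (k₁ : ℝ) ≤ k := by exact_mod_cast (by omega : k₁ ≤ k)
  have hk2 : (k₂ : ℝ) ≤ k := by exact_mod_cast (by omega : k₂ ≤ k)
  have hk0 : (0 : ℝ) ≤ k := Nat.cast_nonneg k
  by_contra hcon
  push Not at hcon
  have hnc : ∀ z : ℤ, ‖(z : ℂ) / 2‖ = |(z : ℝ)| / 2 := by
    intro z
    rw [norm_div, Complex.norm_intCast]
    simp
  have hnd : ‖((c : ℂ) - c') / 2‖ = |(c : ℝ) - c'| / 2 := by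
    have := hnc (c - c')
    push_cast at this
    exact this
  have hκ0 := abs_nonneg κ
  -- the difference of the shifted roots
  have hd1 : ‖(ρ + c / 2) - (ρ' + c' / 2)‖ ≤ B := by
    have e : (ρ + c / 2) - (ρ' + c' / 2) = (ρ - ρ') + ((c : ℂ) - c') / 2 := by ring
    rw [e]
    refine le_trans (norm_add_le _ _) ?_
    rw [hnd, hB]
    linarith
  have hprod : ((ρ + c / 2) - (ρ' + c' / 2)) * ((ρ + c / 2) + (ρ' + c' / 2)) =
      ((κ + (β - α) * k : ℝ) : ℂ) := by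
    rw [hκ]
    push_cast at h1 h2 ⊢
    linear_combination h1 - h2
  have hnp : ‖(ρ + c / 2) - (ρ' + c' / 2)‖ * ‖(ρ + c / 2) + (ρ' + c' / 2)‖ =
      |κ + (β - α) * k| := by
    rw [← norm_mul, hprod, Complex.norm_real]
    rfl
  rcases eq_or_ne α β with hαβ | hαβ
  · rw [hαβ, sub_self, zero_mul, add_zero] at hnp
    have hd2 : 1 ≤ ‖(ρ + c / 2) - (ρ' + c' / 2)‖ := by
      have e : ((c : ℂ) - c') / 2 = ((ρ + c / 2) - (ρ' + c' / 2)) - (ρ - ρ') := by ring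
      have h6 := norm_sub_le ((ρ + c / 2) - (ρ' + c' / 2)) (ρ - ρ')
      rw [← e, hnd] at h6
      have h7 : (6 : ℝ) ≤ |(c : ℝ) - c'| := by exact_mod_cast hc
      linarith
    have hs1 : ‖(ρ + c / 2) + (ρ' + c' / 2)‖ ≤ |κ| := by
      rw [← hnp]
      nlinarith [norm_nonneg ((ρ + c / 2) + (ρ' + c' / 2))]
    have h8 : 2 * ‖ρ‖ ≤ |κ| + |(c : ℝ)| + B := by
      have e : ρ + ρ = ((ρ + c / 2) + (ρ' + c' / 2)) + ((ρ + c / 2) - (ρ' + c' / 2)) - c := by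
        ring
      have h9 := norm_sub_le (((ρ + c / 2) + (ρ' + c' / 2)) + ((ρ + c / 2) - (ρ' + c' / 2)))
        (c : ℂ)
      rw [← e, Complex.norm_intCast] at h9
      have h10 := norm_add_le ((ρ + c / 2) + (ρ' + c' / 2)) ((ρ + c / 2) - (ρ' + c' / 2))
      have h11 : ‖ρ + ρ‖ = 2 * ‖ρ‖ := by
        rw [← two_mul, norm_mul]
        simp
      rw [h11] at h9
      linarith
    have h12 : ‖ρ‖ ≤ |κ| + |(c : ℝ)| + B := by linarith [norm_nonneg ρ]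
    have h13 : ‖ρ‖ ^ 4 ≤ (|κ| + |(c : ℝ)| + B) ^ 4 := pow_le_pow_left₀ (norm_nonneg _) h12 4
    linarith
  · have hs2 : ‖(ρ + c / 2) + (ρ' + c' / 2)‖ ≤ ‖ρ‖ + ‖ρ'‖ + E := by
      have e : (ρ + c / 2) + (ρ' + c' / 2) = (ρ + ρ') + ((c : ℂ) / 2 + (c' : ℂ) / 2) := by ring
      rw [e]
      have h6 := norm_add_le (ρ + ρ') ((c : ℂ) / 2 + (c' : ℂ) / 2)
      have h7 := norm_add_le ρ ρ'
      have h8 := norm_add_le ((c : ℂ) / 2) ((c' : ℂ) / 2)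
      rw [hnc, hnc] at h8
      linarith
    have h6 : |κ + (β - α) * k| ≤ B * (‖ρ‖ + ‖ρ'‖ + E) := by
      rw [← hnp]
      exact mul_le_mul hd1 hs2 (norm_nonneg _) hB0.le
    have h7 : (k : ℝ) - |κ| ≤ |κ + (β - α) * k| := by
      have h8 : (1 : ℝ) ≤ |(β : ℝ) - α| := by
        have : 1 ≤ |β - α| := Int.one_le_abs (sub_ne_zero.2 hαβ.symm)
        exact_mod_cast this
      have h9 := abs_sub_abs_le_abs_sub (((β : ℝ) - α) * k) (-κ)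
      rw [abs_neg, sub_neg_eq_add, add_comm (((β : ℝ) - α) * k), abs_mul,
        abs_of_nonneg hk0] at h9
      nlinarith
    set s : ℝ := ‖ρ‖ + ‖ρ'‖ with hs
    have hs0 : 0 ≤ s := by positivity
    have hs4 : s ^ 2 ≤ 4 * A * k := by
      have : s ^ 2 ≤ 2 * (‖ρ‖ ^ 2 + ‖ρ'‖ ^ 2) := by
        rw [hs]
        nlinarith [sq_nonneg (‖ρ‖ - ‖ρ'‖)]
      nlinarith
    have hF0 : 0 ≤ B * E + |κ| := by positivity
    have h8 : (k : ℝ) ≤ B * s + (B * E + |κ|) := by nlinarith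
    have hAB : 0 ≤ 16 * A * B ^ 2 := by positivity
    have h9 : (k : ℝ) / 2 ≤ B * s := by linarith
    have h10 : ((k : ℝ) / 2) ^ 2 ≤ (B * s) ^ 2 := pow_le_pow_left₀ (by positivity) h9 2
    have h11 : (B * s) ^ 2 = B ^ 2 * s ^ 2 := by ring
    have h12 : B ^ 2 * s ^ 2 ≤ B ^ 2 * (4 * A * k) := mul_le_mul_of_nonneg_left hs4 (sq_nonneg B)
    have hkp : 0 < (k : ℝ) := by linarith
    have h13 : (k : ℝ) * k ≤ (16 * A * B ^ 2) * k := by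
      have e1 : ((k : ℝ) / 2) ^ 2 = (k : ℝ) * k / 4 := by ring
      have e2 : B ^ 2 * (4 * A * k) = (16 * A * B ^ 2) * k / 4 := by ring
      rw [e1, h11] at h10
      rw [e2] at h12
      linarith
    have h14 : (k : ℝ) ≤ 16 * A * B ^ 2 := le_of_mul_le_mul_right h13 hkp
    linarith

/-- the statement for one pair of factors -/
theorem dsb1 (hD : DsaStmt) (a : Ix r₁ r₂ → ℤ) (i : Fin 2 → Fin r₁ ⊕ Fin r₂)
    (hi : Function.Injective i) (P v : Fin 2 → ℤ) (hs : Sep (shg (fun m => cst (i m)) a P))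
    (j j' : Fin r₁ ⊕ Fin r₂) : ∃ k₀ : ℕ, ∀ k : ℕ, k₀ ≤ k → ∀ (ρ ρ' : ℂ), j ≠ j' →
      ((fac (shg (fun m => cst (i m)) a fun m => P m + v m * k) j).map
        (Int.castRingHom ℂ)).eval ρ = 0 →
      ((fac (shg (fun m => cst (i m)) a fun m => P m + v m * k) j').map
        (Int.castRingHom ℂ)).eval ρ' = 0 → 2 ≤ ‖ρ - ρ'‖ := by
  obtain ⟨A, k₀, hA, h⟩ := hD r₁ r₂ a i hi P v
  -- a factor which does not move
  have hfix : ∀ (j : Fin r₁ ⊕ Fin r₂) (k : ℕ) (ρ : ℂ), (¬ ∃ m, j = i m ∧ v m ≠ 0) →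
      ((fac (shg (fun m => cst (i m)) a fun m => P m + v m * k) j).map
        (Int.castRingHom ℂ)).eval ρ = 0 →
      ((fac (shg (fun m => cst (i m)) a P) j).map (Int.castRingHom ℂ)).eval ρ = 0 := by
    intro j k ρ hj hρ
    have e1 := shg_cst a i P v k j
    rw [al_of_not hj, zero_mul, add_zero] at e1
    rcases j with j | j
    · rw [eval_fac_inl] at hρ ⊢
      have e2 : (cst (Sum.inl j) : Ix r₁ r₂) = Sum.inl j := rfl
      rw [e2] at e1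
      rw [e1] at hρ
      exact hρ
    · rw [eval_fac_inr, shg_mid] at hρ
      rw [eval_fac_inr, shg_mid]
      have e2 : (cst (Sum.inr j) : Ix r₁ r₂) = Sum.inr (Sum.inr j) := rfl
      rw [e2] at e1
      rw [e1] at hρ
      exact hρ
  by_cases hj : ∃ m, j = i m ∧ v m ≠ 0 <;> by_cases hj' : ∃ m, j' = i m ∧ v m ≠ 0
  · rcases j with j | j <;> rcases j' with j' | j'
    · obtain ⟨m, -, -⟩ := hj
      by_cases hjj : j = j'
      · exact ⟨0, fun k _ ρ ρ' hne => absurd (by rw [hjj]) hne⟩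
      obtain ⟨k₁, h1⟩ := case3a (shg (fun m => cst (i m)) a P (cst (.inl j)))
        (shg (fun m => cst (i m)) a P (cst (.inl j'))) (al i v (.inl j)) (al i v (.inl j'))
        (hs.ll j j' hjj)
      refine ⟨k₁, fun k hk ρ ρ' _ hρ hρ' => h1 k hk ρ ρ' ?_ ?_⟩
      · rw [eval_fac_inl] at hρ
        rw [← shg_cst a i P v k (.inl j)]
        exact hρ
      · rw [eval_fac_inl] at hρ'
        rw [← shg_cst a i P v k (.inl j')]
        exact hρ'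
    · obtain ⟨k₁, h1⟩ := case3b A hA
      refine ⟨k₀ + k₁, fun k hk ρ ρ' _ hρ hρ' => h1 k (by omega) ρ ρ' ?_ ?_⟩
      · exact ((h k (by omega) _ ρ hρ).1 hj).2.2.2 ⟨j, rfl⟩
      · exact ((h k (by omega) _ ρ' hρ').1 hj').2.2.1 ⟨j', rfl⟩
    · obtain ⟨k₁, h1⟩ := case3b A hA
      refine ⟨k₀ + k₁, fun k hk ρ ρ' _ hρ hρ' => ?_⟩
      rw [norm_sub_rev]
      refine h1 k (by omega) ρ' ρ ?_ ?_
      · exact ((h k (by omega) _ ρ' hρ').1 hj').2.2.2 ⟨j', rfl⟩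
      · exact ((h k (by omega) _ ρ hρ).1 hj).2.2.1 ⟨j, rfl⟩
    · by_cases hjj : j = j'
      · exact ⟨0, fun k _ ρ ρ' hne => absurd (by rw [hjj]) hne⟩
      have hqq := hs.qq j j' hjj
      rw [shg_mid, shg_mid] at hqq
      obtain ⟨k₁, h1⟩ := case3c A hA (a (.inr (.inl j)))
        (shg (fun m => cst (i m)) a P (cst (.inr j))) (al i v (.inr j)) (a (.inr (.inl j')))
        (shg (fun m => cst (i m)) a P (cst (.inr j'))) (al i v (.inr j')) hqq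
      refine ⟨k₀ + k₁, fun k hk ρ ρ' _ hρ hρ' => h1 k (by omega) ρ ρ' ?_ ?_
        ((h k (by omega) _ ρ hρ).1 hj).1
        (((h k (by omega) _ ρ hρ).1 hj).2.2.1 ⟨j, rfl⟩)
        (((h k (by omega) _ ρ' hρ').1 hj').2.2.1 ⟨j', rfl⟩)⟩
      · rw [eval_fac_inr, shg_mid] at hρ
        rw [← shg_cst a i P v k (.inr j)]
        exact hρ
      · rw [eval_fac_inr, shg_mid] at hρ'
        rw [← shg_cst a i P v k (.inr j')]
        exact hρ'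
  · obtain ⟨k₁, h1⟩ := case2 A
    exact ⟨k₀ + k₁, fun k hk ρ ρ' _ hρ hρ' => h1 k (by omega) ρ ρ'
      ((h k (by omega) j ρ hρ).1 hj).1 ((h k (by omega) j' ρ' hρ').2 hj')⟩
  · obtain ⟨k₁, h1⟩ := case2 A
    refine ⟨k₀ + k₁, fun k hk ρ ρ' _ hρ hρ' => ?_⟩
    rw [norm_sub_rev]
    exact h1 k (by omega) ρ' ρ ((h k (by omega) j' ρ' hρ').1 hj').1
      ((h k (by omega) j ρ hρ).2 hj)
  · exact ⟨0, fun k _ ρ ρ' hne hρ hρ' => sep_fac hs hne (hfix j k ρ hj hρ) (hfix j' k ρ' hj' hρ')⟩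

theorem dsb : DsbStmt := by
  intro hD r₁ r₂ a i hi P v hs
  choose k₀ h using dsb1 hD a i hi P v hs
  refine ⟨∑ j, ∑ j', k₀ j j', fun k hk j j' ρ ρ' hne hρ hρ' => h j j' k ?_ ρ ρ' hne hρ hρ'⟩
  refine le_trans ?_ hk
  refine le_trans ?_ (Finset.single_le_sum (f := fun j => ∑ j', k₀ j j') (fun j _ => Nat.zero_le _)
    (Finset.mem_univ j))
  exact Finset.single_le_sum (f := fun j' => k₀ j j') (fun j _ => Nat.zero_le _)
    (Finset.mem_univ j')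

end Pool.Agent.LPW.H77
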