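import Pool.Agent.LPW.StmtsF

/-!
# Squad LPW, row NEX (helper77): the norm of a unit
-/

set_option autoImplicit false

open Polynomial NumberField
open Pool.Agent.Helper65_Leo (exists_conj_equiv exists_enum)

namespace Pool.Agent.LPW.H77

theorem nex : NexStmt := by
  intro n F W a hF hn hW hex
  obtain ⟨K, _, _, θ, hθ, hgen, hfin, hu⟩ := hex
  have hcoe : ∀ G : ℤ[X], aeval (θ : K) G = ((aeval θ G : 𝓞 K) : K) := fun G =>
    aeval_algebraMap_apply K θ G
  have hroot : aeval (θ : K) F = 0 := by rw [hcoe, hθ]; exact map_zero (algebraMap (𝓞 K) K)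
  obtain ⟨y, hy⟩ := exists_enum (F.map (Int.castRingHom ℂ)) (hF.map _) n
    (by rw [hF.natDegree_map, hn])
  obtain ⟨e, he⟩ := exists_conj_equiv hgen hroot y hy (by rw [Fintype.card_fin, hfin])
  have hinj : Function.Injective y := by
    intro i j hij
    have h1 : (e.symm i) (θ : K) = (e.symm j) (θ : K) := by
      rw [← he, ← he, e.apply_symm_apply, e.apply_symm_apply, hij]
    exact e.symm.injective (Helper85_Leo.embedding_injective (θ : K) hgen h1)
  have hprod : ∏ j, (W.map (Int.castRingHom ℂ)).eval (y j) =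
      ((Algebra.norm ℚ (aeval (θ : K) W) : ℚ) : ℂ) := by
    have h1 : ∀ σ : K →+* ℂ, (W.map (Int.castRingHom ℂ)).eval (y (e σ)) = σ (aeval (θ : K) W) := by
      intro σ
      rw [he, eval_map, aeval_def, hom_eval₂]
      congr 1
      exact (RingHom.ext_int _ _)
    have h2 : ∏ j, (W.map (Int.castRingHom ℂ)).eval (y j) = ∏ σ : K →+* ℂ, σ (aeval (θ : K) W) := by
      rw [← Equiv.prod_comp e]
      exact Finset.prod_congr rfl fun σ _ => h1 σ
    have h3 := Algebra.norm_eq_prod_embeddings ℚ ℂ (aeval (θ : K) W)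
    have h4 : ∏ σ : K →+* ℂ, σ (aeval (θ : K) W) = ∏ σ : K →ₐ[ℚ] ℂ, σ (aeval (θ : K) W) :=
      Fintype.prod_equiv (RingHom.equivRatAlgHom K ℂ) _ _ fun σ => rfl
    rw [h2, h4, ← h3]
    rfl
  have hnorm : |(Algebra.norm ℚ (aeval (θ : K) W) : ℚ)| = 1 := by
    rw [hcoe]
    exact NumberField.isUnit_iff_norm.1 hu
  have hsq : (Algebra.norm ℚ (aeval (θ : K) W) : ℚ) ^ 2 = 1 := by
    rw [← sq_abs, hnorm, one_pow]
  have hsq' : ((Algebra.norm ℚ (aeval (θ : K) W) : ℚ) : ℂ) ^ 2 = 1 := by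
    exact_mod_cast hsq
  have hfinal : (a : ℂ) ^ 2 = 1 := by
    rcases hW y hy hinj with h | h
    · rw [h, hprod, hsq']
    · rw [h, hprod, neg_sq, hsq']
  exact_mod_cast hfinal

end Pool.Agent.LPW.H77
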